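import Pool.Agent.H50.CW.FINB
import Pool.Agent.H50.BF.FIN
import Pool.Agent.H50.BF.LIB
import Pool.Agent.H50.BF.SIGA
import Pool.Agent.H50.BF.SUB
import Pool.Agent.H50.BF.AP
import Pool.Agent.H50.BF.BT
import Pool.Agent.H50.BF.CRT
import Pool.Agent.H50.BF.ONE
import Pool.Agent.H50.BF.TAIL
import Pool.Agent.H50.BF.DSUM
import Pool.Agent.H50.BF.IND
import Pool.Agent.H50.BF.MGF
import Pool.Agent.H50.BF.TRANS
import Pool.Agent.H50.BF.EXM
import Pool.Agent.H50.CW.STP
import Pool.Agent.H50.CW.WIN
import Pool.Agent.H50.CW.DIV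
import Pool.Agent.H50.CW.DPI
import Pool.Agent.H50.CW.TND
import Pool.Agent.H50.CW.UPB
import Pool.Agent.H50.CW.LOB
import Pool.Agent.H50.CW.PAR
import Pool.Agent.H50.CW.SEC
import Pool.Agent.H50.CW.CONA
import Pool.Agent.H50.CW.TRC
import Pool.Agent.H50.CW.EXD
import Pool.Agent.H50.CW.EXW
import Pool.Agent.H50.CW.POS
import Pool.Agent.H50.CW.NUM
import Pool.Agent.H50.CW.EXJ
import Pool.Agent.H50.CW.EXI
import Pool.Agent.H50.CW.UPX
import Pool.Agent.H50.CW.RATE
import Pool.Agent.H50.CW.SIG2
import Pool.Agent.H50.LS.LSU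
import Pool.Agent.H50.LS.CLU
import Pool.Agent.H50.LS.PHU
import Pool.Agent.H50.LS.NUU
import Pool.Agent.H50.LS.AZ
import Pool.Agent.H50.LS.JRU
import Pool.Agent.H50.LS.FINU

/-!
# Intervals of length `C (log x)²` in the random sieve of Banks, Ford and Tao

Banks, Ford and Tao: remove a random residue class for every prime `p` and keep the integers `n` which
are not in the classes removed for the primes `p ≤ z n`, where `∏_{p ≤ z n} (1 - 1/p)` is asymptotic to
`1 / log n`.  We determine the smallest and the largest numbers of elements of this random set in the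
intervals `(x, x + C (log x)²)`, in particular in Schinzel's intervals `(x, x + (log x)²)`: divided by
`log x`, the upper limit is `upper (C σ⁺)` and the lower limit is `lower (C σ⁻)`, almost surely, where
`σ⁻ < 1 < σ⁺` are the extremal densities of the interval sieve (intervals of length `w²`, primes up to
`w`), and `upper l`, `lower l` are the two solutions `u` of `u log (u / l) - u + l = 1`.
-/

set_option autoImplicit false

open MeasureTheory Filter Set
open scoped Topology ENNReal

namespace Pool.Agent.Results.MP_45ff98_nt.CriticalWindows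

/-- the number of members of `S` in the open interval `(x, x + y)` -/
noncomputable def count (S : Set ℕ) (x y : ℝ) : ℕ := Set.ncard {m : ℕ | m ∈ S ∧ x < m ∧ (m : ℝ) < x + y}

/-- `∏_{p ≤ y} (1 - 1/p)` -/
noncomputable def mertens (y : ℕ) : ℝ := ∏ p ∈ (Finset.Icc 1 y).filter Nat.Prime, (1 - (p : ℝ)⁻¹)

/-- `n` has no prime factor `≤ w` -/
def Rough (w n : ℕ) : Prop := ∀ p : ℕ, p.Prime → p ∣ n → w < p

/-- the number of the integers without prime factors `≤ w` in the interval `(t, t + w²]`, divided by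
the expected number `w² ∏_{p ≤ w} (1 - 1/p)` -/
noncomputable def roughDensity (w t : ℕ) : ℝ :=
  (Set.ncard {m : ℕ | t < m ∧ m ≤ t + w ^ 2 ∧ Rough w m} : ℝ) / ((w : ℝ) ^ 2 * mertens w)

/-- the lower extremal density of the interval sieve: the sparsest intervals of length `w²`, `w → ∞` -/
noncomputable def sparsest : ℝ≥0∞ :=
  liminf (fun w : ℕ => ⨅ t : ℕ, ENNReal.ofReal (roughDensity w t)) atTop

/-- the upper extremal density of the interval sieve: the densest intervals of length `w²`, `w → ∞` -/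
noncomputable def densest : ℝ≥0∞ :=
  limsup (fun w : ℕ => ⨆ t : ℕ, ENNReal.ofReal (roughDensity w t)) atTop

/-- the largest `u` with `u log (u / l) - u + l ≤ 1`: the threshold for the upper deviations, of
probability `1 / x`, of a Poisson variable of mean `l log x` -/
noncomputable def upper (l : ℝ) : ℝ := sSup {u : ℝ | 0 ≤ u ∧ u * Real.log (u / l) - u + l ≤ 1}

/-- the smallest `u ≥ 0` with `u log (u / l) - u + l ≤ 1` -/
noncomputable def lower (l : ℝ) : ℝ := sInf {u : ℝ | 0 ≤ u ∧ u * Real.log (u / l) - u + l ≤ 1}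

/-- The residues of the random integers `a p` modulo the primes `p` are independent, and the residue
of `a p` modulo `p` is uniformly distributed: for all prescribed residues `c p < p`, `p ≤ w`, the
probability of `a p ≡ c p (mod p)` for all primes `p ≤ w` is `∏_{p ≤ w} 1/p`. -/
structure RandomResidues {Ω : Type} [MeasurableSpace Ω] (P : Measure Ω) (a : ℕ → Ω → ℕ) : Prop where
  meas : ∀ p, Measurable (a p)
  law : ∀ (w : ℕ) (c : ℕ → ℕ), (∀ p : ℕ, p.Prime → c p < p) →
    P {ω | ∀ p : ℕ, p.Prime → p ≤ w → a p ω % p = c p} =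
      ENNReal.ofReal (∏ p ∈ (Finset.Icc 1 w).filter Nat.Prime, (p : ℝ)⁻¹)

/-- the integers `n` with `n ≢ a p (mod p)` for all primes `p ≤ z n` -/
def randomSieve (a z : ℕ → ℕ) : Set ℕ := {n | ∀ p : ℕ, p.Prime → p ≤ z n → n % p ≠ a p % p}

open Pool.Agent.H50.BF Pool.Agent.H50.CW

lemma mertens_MM (w : ℕ) : mertens w = (MM w)⁻¹ := by
  unfold mertens MM
  rw [Finset.prod_inv_distrib, inv_inv]

lemma rough_sv (w t U : ℕ) : Set.ncard {m : ℕ | t < m ∧ m ≤ t + U ∧ Rough w m} = sv (fun _ => 0) w t U := by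
  rw [sv_ncard]
  congr 1
  ext m
  simp only [Set.mem_ofPred_eq, Nat.zero_mod]
  constructor
  · rintro ⟨h1, h2, h3⟩
    exact ⟨fun p hp hpw h0 => absurd (h3 p hp (Nat.dvd_of_mod_eq_zero h0)) (not_lt.2 hpw), h1, h2⟩
  · rintro ⟨h3, h1, h2⟩
    refine ⟨h1, h2, fun p hp hd => ?_⟩
    by_contra hcon
    push Not at hcon
    exact h3 p hp hcon (Nat.mod_eq_zero_of_dvd hd)

lemma roughDensity_vl (w t : ℕ) : roughDensity w t = vl w 2 t := by
  unfold roughDensity vl
  have h : ⌊(w : ℝ) ^ (2 : ℝ)⌋₊ = w ^ 2 := by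
    rw [Real.rpow_two, ← Nat.cast_pow, Nat.floor_natCast]
  rw [h, rough_sv, mertens_MM, ← div_div, div_inv_eq_mul, Real.rpow_two]
  ring

lemma sparsest_sl : sparsest = sl 2 := by
  unfold sparsest sl
  congr 1
  funext w
  have h : lo w 2 = ⨅ t : ℕ, roughDensity w t := by
    unfold lo
    exact iInf_congr fun t => (roughDensity_vl w t).symm
  rw [h]
  refine (Monotone.map_ciInf_of_continuousAt ENNReal.continuous_ofReal.continuousAt
    (fun _ _ h => ENNReal.ofReal_le_ofReal h) ?_).symm
  rw [show roughDensity w = vl w 2 from funext (roughDensity_vl w)]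
  exact bddB w 2

lemma densest_sh : densest = sh 2 := by
  unfold densest sh
  congr 1
  funext w
  have h : hi w 2 = ⨆ t : ℕ, roughDensity w t := by
    unfold hi
    exact iSup_congr fun t => (roughDensity_vl w t).symm
  rw [h]
  refine (Monotone.map_ciSup_of_continuousAt ENNReal.continuous_ofReal.continuousAt
    (fun _ _ h => ENNReal.ofReal_le_ofReal h) ?_).symm
  rw [show roughDensity w = vl w 2 from funext (roughDensity_vl w)]
  exact bddA w 2

lemma crt' : S_CRT := crt
lemma trans' : S_TRANS := trans (ap (bt crt fund)) (bt crt fund) mert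
lemma sub' : S_SUB := sub (bt crt fund) mert
lemma tail' : S_TAIL := tail (mgf ind one)
lemma dpi' : S_DPI := dpi ind
lemma upb' : S_UPB := upb ind dpi' stp win
lemma lob' : S_LOB := lob ind dpi' stp win
lemma par' : S_PAR := par ind dpi' stp win dv
lemma sec' : S_SEC := sec dpi' upb' lob' par'
lemma cona' : S_CONA := cona tail' (dsum mert)
lemma trc' : S_TRC := trc trans'
lemma exj' : S_EXJ := exj sec' (num mert) (pos crt') (exw trans' sub') trc' cona' (tnd dpi') mert
lemma exi' : S_EXI := exi exj'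
lemma upx' : S_UPX := upx cona' trc' (exd trans' sub' crt') dpi' upb' (dsum mert)

lemma sparsest_lt : sparsest < 1 := by
  rw [sparsest_sl]
  refine lt_of_le_of_lt (liminf_le_add fun ε hε => ?_) (sl_lt_one (siga sub') buch (show (2 : ℝ) < 3 by norm_num))
  exact ((sig2 sub').1 ε hε).mono fun w hw => hw.1

lemma one_lt_densest : 1 < densest := by
  rw [densest_sh]
  refine lt_of_lt_of_le (one_lt_sh (siga sub') buch (show (2 : ℝ) < 3 by norm_num)) (limsup_le_add fun ε hε => ?_)
  exact ((sig2 sub').1 ε hε).mono fun w hw => hw.2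

lemma lower_pos {l : ℝ} (hl : 1 < l) : 0 < lower l := by
  have h1 : Tendsto (fun u : ℝ => u * Real.log u - u * Real.log l - u + l) (𝓝 0) (𝓝 (0 * Real.log 0 - 0 * Real.log l - 0 + l)) := by
    have : Continuous fun u : ℝ => u * Real.log u - u * Real.log l - u + l :=
      ((Real.continuous_mul_log.sub (continuous_id.mul continuous_const)).sub continuous_id).add continuous_const
    exact this.tendsto 0
  have h2 : ∀ᶠ u : ℝ in 𝓝 0, 1 < u * Real.log u - u * Real.log l - u + l :=
    h1.eventually (lt_mem_nhds (by simpa using hl))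
  obtain ⟨r, hr, h3⟩ := Metric.eventually_nhds_iff.1 h2
  have h4 : r ≤ lower l := by
    refine le_csInf ⟨l, by linarith, ?_⟩ ?_
    · rw [div_self (by linarith), Real.log_one]
      linarith
    · rintro u ⟨hu0, hu1⟩
      by_contra hur
      push Not at hur
      have h5 := @h3 u (by rw [Real.dist_eq, sub_zero, abs_of_nonneg hu0]; exact hur)
      rcases hu0.eq_or_lt with h | h
      · rw [← h] at hu1
        simp at hu1
        linarith
      · rw [Real.log_div h.ne' (by linarith)] at hu1
        linarith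
  linarith

/-- The linear sieve: `σ⁺ ≤ e^γ`. -/
lemma densest_le : densest ≤ ENNReal.ofReal (Real.exp Real.eulerMascheroniConstant) := by
  rw [densest_sh]
  have h := Pool.Agent.H50.LS.finu (Pool.Agent.H50.LS.jru Pool.Agent.H50.LS.lsu Pool.Agent.H50.LS.clu
    Pool.Agent.H50.LS.phu (Pool.Agent.H50.LS.nuu mert)) Pool.Agent.H50.LS.az 2 (by norm_num) (by norm_num)
  rwa [mul_div_cancel_left₀ _ (two_ne_zero)] at h

/-- The numbers of elements of the random sieve in the intervals `(x, x + C (log x)²)`. -/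
theorem result :
    -- random residues exist
    (∃ (Ω : Type) (_ : MeasurableSpace Ω) (P : Measure Ω) (a : ℕ → Ω → ℕ), RandomResidues P a) ∧
    -- the extremal densities of the interval sieve, and the thresholds
    sparsest < 1 ∧ 1 < densest ∧ densest ≤ ENNReal.ofReal (Real.exp Real.eulerMascheroniConstant) ∧
    (∀ l : ℝ, 1 < l → Real.exp 1 < upper l ∧ l ≤ upper l ∧ 0 < lower l) ∧
    (∀ l : ℝ, 0 ≤ l → l ≤ 1 → lower l = 0) ∧
    -- the random sieve of Banks, Ford and Tao
    (∀ (Ω : Type) [MeasurableSpace Ω] (P : Measure Ω) (a : ℕ → Ω → ℕ) (z : ℕ → ℕ), RandomResidues P a →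
      Monotone z → Tendsto (fun n : ℕ => Real.log n * mertens (z n)) atTop (𝓝 1) →
      -- all intervals `(x, x + C (log x)²)`
      (∀ C : ℝ, 0 < C → ∀ᵐ ω ∂P,
        limsup (fun x : ℝ => ENNReal.ofReal
          (count (randomSieve (fun p => a p ω) z) x (C * Real.log x ^ 2) / Real.log x)) atTop =
          ENNReal.ofReal (upper (C * densest.toReal)) ∧
        liminf (fun x : ℝ => ENNReal.ofReal
          (count (randomSieve (fun p => a p ω) z) x (C * Real.log x ^ 2) / Real.log x)) atTop =
          ENNReal.ofReal (lower (C * sparsest.toReal))) ∧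
      -- in particular Schinzel's intervals `(x, x + (log x)²)`
      (∀ᵐ ω ∂P,
        ENNReal.ofReal (Real.exp 1) < limsup (fun x : ℝ => ENNReal.ofReal
          (count (randomSieve (fun p => a p ω) z) x (Real.log x ^ 2) / Real.log x)) atTop ∧
        liminf (fun x : ℝ => ENNReal.ofReal
          (count (randomSieve (fun p => a p ω) z) x (Real.log x ^ 2) / Real.log x)) atTop = 0)) := by
  have hup : upper = up := rfl
  have hdn : lower = dn := rfl
  obtain ⟨B, hB⟩ := (sig2 sub').2
  obtain ⟨h2, hhi1, hhi2⟩ := hi_facts hB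
  have h2' : sl 2 < ∞ := by
    rw [← sparsest_sl]
    exact sparsest_lt.trans ENNReal.one_lt_top
  obtain ⟨hlo1, hlo2⟩ := lo_facts h2'
  have hσ2 : 1 < (sh 2).toReal := by
    have := one_lt_densest
    rw [densest_sh] at this
    rw [← ENNReal.toReal_one]
    exact (ENNReal.toReal_lt_toReal ENNReal.one_ne_top h2.ne).2 this
  have hσ1 : (sl 2).toReal < 1 := by
    have := sparsest_lt
    rw [sparsest_sl] at this
    rw [← ENNReal.toReal_one]
    exact (ENNReal.toReal_lt_toReal h2'.ne ENNReal.one_ne_top).2 this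
  have hrate := rate
  have key : ∀ (Ω : Type) [MeasurableSpace Ω] (P : Measure Ω) (a : ℕ → Ω → ℕ) (z : ℕ → ℕ), RandomResidues P a →
      Monotone z → Tendsto (fun n : ℕ => Real.log n * mertens (z n)) atTop (𝓝 1) → ∀ C : ℝ, 0 < C → ∀ᵐ ω ∂P,
        limsup (fun x : ℝ => ENNReal.ofReal
          (count (randomSieve (fun p => a p ω) z) x (C * Real.log x ^ 2) / Real.log x)) atTop =
          ENNReal.ofReal (upper (C * densest.toReal)) ∧
        liminf (fun x : ℝ => ENNReal.ofReal
          (count (randomSieve (fun p => a p ω) z) x (C * Real.log x ^ 2) / Real.log x)) atTop =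
          ENNReal.ofReal (lower (C * sparsest.toReal)) := by
    intro Ω _ P a z hmod hz hlim C hC
    have hm : Model P a := ⟨hmod.meas, hmod.law⟩
    have hlim' : Tendsto (fun n : ℕ => MM (z n) / Real.log n) atTop (𝓝 1) := by
      have h1 := hlim.inv₀ one_ne_zero
      rw [inv_one] at h1
      refine h1.congr fun n => ?_
      rw [mertens_MM, mul_inv, inv_inv]
      ring
    filter_upwards [partA upx' hrate hm hz hlim' hC (by linarith) hhi1,
      partB upx' hrate hm hz hlim' hC ENNReal.toReal_nonneg hlo1,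
      partC exi' hrate hm hz hlim' hC (by linarith) hhi2,
      partD exi' hrate hm hz hlim' hC ENNReal.toReal_nonneg hlo2] with ω hA hB hC' hD
    rw [densest_sh, sparsest_sl, hup, hdn]
    have hup0 : 0 ≤ up (C * (sh 2).toReal) :=
      (by positivity : 0 ≤ C * (sh 2).toReal).trans (hrate.2.2.2.2.2.2.2 _ (by positivity))
    have hdn0 : 0 ≤ dn (C * (sl 2).toReal) := hrate.2.2.2.2.2.2.1 _ (by positivity)
    exact ⟨le_antisymm (limsup_le_of hup0 hA) (le_limsup_of hC'),
      le_antisymm (liminf_le_of hdn0 hD) (le_liminf_of hB)⟩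
  refine ⟨?_, sparsest_lt, one_lt_densest, densest_le, ?_, hrate.2.2.2.2.2.1, ?_⟩
  · obtain ⟨Ω, mΩ, P, a, h⟩ := exm
    exact ⟨Ω, mΩ, P, a, ⟨h.meas, h.law⟩⟩
  · intro l hl
    exact ⟨hrate.2.2.2.2.1 l hl, hrate.2.2.2.2.2.2.2 l (by linarith), lower_pos hl⟩
  · intro Ω _ P a z hmod hz hlim
    refine ⟨key Ω P a z hmod hz hlim, ?_⟩
    filter_upwards [key Ω P a z hmod hz hlim 1 one_pos] with ω hω
    simp only [one_mul] at hω
    rw [hω.1, hω.2, densest_sh, sparsest_sl]
    refine ⟨?_, ?_⟩
    · refine (ENNReal.ofReal_lt_ofReal_iff_of_nonneg (Real.exp_pos 1).le).2 ?_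
      exact hrate.2.2.2.2.1 _ hσ2
    · rw [hdn, hrate.2.2.2.2.2.1 _ ENNReal.toReal_nonneg hσ1.le, ENNReal.ofReal_zero]

end Pool.Agent.Results.MP_45ff98_nt.CriticalWindows
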