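import Pool.Agent.H50.GW.FIN
import Pool.Agent.H50.GW.ALL
import Pool.Agent.H50.BF.SIGA
import Pool.Agent.H50.BF.SUB
import Pool.Agent.H50.BF.BT
import Pool.Agent.H50.BF.CRT
import Pool.Agent.H50.CW.SIG2
import Pool.Agent.H50.LS.LSU
import Pool.Agent.H50.LS.CLU
import Pool.Agent.H50.LS.PHU
import Pool.Agent.H50.LS.NUU
import Pool.Agent.H50.LS.AZ
import Pool.Agent.H50.LS.JRU
import Pool.Agent.H50.LS.FINU

/-!
# Intervals of length `C (log x)²` in Granville's model of the primes

Granville's refinement of Cramér's model: independent events `A n` (the number `n` is chosen); the multiples of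
the primes `p ≤ z n` are not chosen, `log (z n) ~ log log n`, and the other `n` are chosen with a
probability asymptotic to `∏_{p ≤ z n} (1 - 1/p)⁻¹ / log n`.  We determine, for every `C > 0`, the
smallest and the largest numbers of chosen integers in the intervals `(x, x + C (log x)²)`.
-/

set_option autoImplicit false

open MeasureTheory Filter Set ProbabilityTheory
open scoped Topology ENNReal

namespace Pool.Agent.Results.MP_45ff98_nt.GranvilleWindows

/-- the number of members of `S` in the open interval `(x, x + y)` -/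
noncomputable def count (S : Set ℕ) (x y : ℝ) : ℕ := Set.ncard {m : ℕ | m ∈ S ∧ x < m ∧ (m : ℝ) < x + y}

/-- `∏_{p ≤ y} (1 - 1/p)` -/
noncomputable def mertens (y : ℕ) : ℝ := ∏ p ∈ (Finset.Icc 1 y).filter Nat.Prime, (1 - (p : ℝ)⁻¹)

/-- `n` has no prime factor `≤ w` -/
def Rough (w n : ℕ) : Prop := ∀ p : ℕ, p.Prime → p ∣ n → w < p

/-- the number of the integers without prime factors `≤ w` in the interval `(t, t + w²]`, divided by
the expected number `w² ∏_{p ≤ w} (1 - 1/p)` -/
noncomputable def roughDensity (w t : ℕ) : ℝ :=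
  (Set.ncard {m : ℕ | t < m ∧ m ≤ t + w ^ 2 ∧ Rough w m} : ℝ) / ((w : ℝ) ^ 2 * mertens w)

/-- the lower extremal density of the interval sieve: the sparsest intervals of length `w²`, `w → ∞` -/
noncomputable def sparsest : ℝ≥0∞ :=
  liminf (fun w : ℕ => ⨅ t : ℕ, ENNReal.ofReal (roughDensity w t)) atTop

/-- the upper extremal density of the interval sieve: the densest intervals of length `w²`, `w → ∞` -/
noncomputable def densest : ℝ≥0∞ :=
  limsup (fun w : ℕ => ⨆ t : ℕ, ENNReal.ofReal (roughDensity w t)) atTop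

/-- the largest `u` with `u log (u / l) - u + l ≤ 1`: the threshold for the upper deviations, of
probability `1 / x`, of a Poisson variable of mean `l log x` -/
noncomputable def upper (l : ℝ) : ℝ := sSup {u : ℝ | 0 ≤ u ∧ u * Real.log (u / l) - u + l ≤ 1}

/-- the smallest `u ≥ 0` with `u log (u / l) - u + l ≤ 1` -/
noncomputable def lower (l : ℝ) : ℝ := sInf {u : ℝ | 0 ≤ u ∧ u * Real.log (u / l) - u + l ≤ 1}

/-- Granville's model -/
structure GranvilleModel {Ω : Type} [MeasurableSpace Ω] (P : Measure Ω) (A : ℕ → Set Ω) (z : ℕ → ℕ) : Prop where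
  prob : IsProbabilityMeasure P
  meas : ∀ n, MeasurableSet (A n)
  indep : iIndepSet A P
  empty : ∀ n, ¬ Rough (z n) n → A n = ∅
  mono : Monotone z
  level : Tendsto (fun n : ℕ => Real.log (z n) / Real.log (Real.log n)) atTop (𝓝 1)
  density : Tendsto (fun n : ℕ => (P (A n)).toReal * (Real.log n * mertens (z n)))
    (atTop ⊓ 𝓟 {n : ℕ | Rough (z n) n}) (𝓝 1)

open Pool.Agent.H50.BF Pool.Agent.H50.CW Pool.Agent.H50.GW

lemma mertens_MM (w : ℕ) : mertens w = (MM w)⁻¹ := by
  unfold mertens MM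
  rw [Finset.prod_inv_distrib, inv_inv]

lemma rough_iff (w n : ℕ) : Rough w n ↔ Rou w n := by
  unfold Rough Rou
  constructor
  · intro h p hp hpw hd
    exact absurd (h p hp hd) (not_lt.2 hpw)
  · intro h p hp hd
    by_contra hcon
    push Not at hcon
    exact h p hp hcon hd

lemma gmod_iff {Ω : Type} [MeasurableSpace Ω] (P : Measure Ω) (A : ℕ → Set Ω) (z : ℕ → ℕ) :
    GranvilleModel P A z ↔ GMod P A z := by
  have h1 : {n : ℕ | Rough (z n) n} = {n : ℕ | Rou (z n) n} := by
    ext n
    exact rough_iff _ _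
  have h2 : (fun n : ℕ => (P (A n)).toReal * (Real.log n * mertens (z n))) =
      fun n : ℕ => (P (A n)).toReal * (Real.log n / MM (z n)) := by
    funext n
    rw [mertens_MM, div_eq_mul_inv]
  constructor
  · intro h
    exact ⟨h.prob, h.meas, h.indep, fun n hn => h.empty n (by rwa [rough_iff]), h.mono, h.level, by
      have := h.density
      rwa [h1, h2] at this⟩
  · intro h
    refine ⟨h.prob, h.meas, h.indep, fun n hn => h.empty n (by rwa [rough_iff] at hn), h.mono, h.lev, ?_⟩
    have := h.dens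
    rw [h1, h2]
    exact this

lemma rough_sv (w t U : ℕ) : Set.ncard {m : ℕ | t < m ∧ m ≤ t + U ∧ Rough w m} = sv (fun _ => 0) w t U := by
  rw [sv_ncard]
  congr 1
  ext m
  simp only [Set.mem_ofPred_eq, Nat.zero_mod]
  constructor
  · rintro ⟨h1, h2, h3⟩
    exact ⟨fun p hp hpw h0 => absurd (h3 p hp (Nat.dvd_of_mod_eq_zero h0)) (not_lt.2 hpw), h1, h2⟩
  · rintro ⟨h3, h1, h2⟩
    refine ⟨h1, h2, fun p hp hd => ?_⟩
    by_contra hcon
    push Not at hcon
    exact h3 p hp hcon (Nat.mod_eq_zero_of_dvd hd)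

lemma roughDensity_vl (w t : ℕ) : roughDensity w t = vl w 2 t := by
  unfold roughDensity vl
  have h : ⌊(w : ℝ) ^ (2 : ℝ)⌋₊ = w ^ 2 := by
    rw [Real.rpow_two, ← Nat.cast_pow, Nat.floor_natCast]
  rw [h, rough_sv, mertens_MM, ← div_div, div_inv_eq_mul, Real.rpow_two]
  ring

/-- the forms -/
def cc : Fin 1 → ℕ := fun _ => 1
/-- the forms -/
def dd : Fin 1 → ℕ := fun _ => 0

lemma sys1 : Sys cc dd where
  one := le_rfl
  pos := fun _ => le_rfl
  adm := fun p hp => ⟨1, fun _ => by simpa [cc, dd] using hp.one_lt.ne'⟩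
  ndg := fun i j hij => absurd (Subsingleton.elim i j) hij
  inj := ⟨0, fun m _ i j _ => Subsingleton.elim i j⟩
  col := ⟨0, fun m m' _ h1 _ i j h2 => by simp only [cc, dd] at h2; omega⟩

lemma sy_sv (w t U : ℕ) : sy cc dd w t U = sv (fun _ => 0) w t U := by
  classical
  unfold sy sv
  congr 1
  refine Finset.filter_congr fun j _ => ?_
  simp only [cc, dd, Nat.zero_mod, Rou, one_mul, add_zero]
  constructor
  · intro h p hp hpw h0
    exact h 0 p hp hpw (Nat.dvd_of_mod_eq_zero h0)
  · intro h _ p hp hpw hd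
    exact h p hp hpw (Nat.mod_eq_zero_of_dvd hd)

lemma DS_vl (w t : ℕ) : DS cc dd w t (w ^ (1 + 1)) = vl w 2 t := by
  unfold DS vl
  have h : ⌊(w : ℝ) ^ (2 : ℝ)⌋₊ = w ^ 2 := by
    rw [Real.rpow_two, ← Nat.cast_pow, Nat.floor_natCast]
  rw [h, sy_sv, Real.rpow_two, pow_one]
  push_cast
  rfl

lemma lok_lo (w : ℕ) : lok cc dd w = lo w 2 := by
  unfold lok lo
  exact iInf_congr fun t => DS_vl w t

lemma hik_hi (w : ℕ) : hik cc dd w = hi w 2 := by
  unfold hik hi
  exact iSup_congr fun t => DS_vl w t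

lemma slk_sl : slk cc dd = sl 2 := by
  unfold slk sl
  simp only [lok_lo]

lemma shk_sh : shk cc dd = sh 2 := by
  unfold shk sh
  simp only [hik_hi]

lemma sparsest_sl : sparsest = sl 2 := by
  unfold sparsest sl
  congr 1
  funext w
  have h : lo w 2 = ⨅ t : ℕ, roughDensity w t := by
    unfold lo
    exact iInf_congr fun t => (roughDensity_vl w t).symm
  rw [h]
  refine (Monotone.map_ciInf_of_continuousAt ENNReal.continuous_ofReal.continuousAt
    (fun _ _ h => ENNReal.ofReal_le_ofReal h) ?_).symm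
  rw [show roughDensity w = vl w 2 from funext (roughDensity_vl w)]
  exact bddB w 2

lemma densest_sh : densest = sh 2 := by
  unfold densest sh
  congr 1
  funext w
  have h : hi w 2 = ⨆ t : ℕ, roughDensity w t := by
    unfold hi
    exact iSup_congr fun t => (roughDensity_vl w t).symm
  rw [h]
  refine (Monotone.map_ciSup_of_continuousAt ENNReal.continuous_ofReal.continuousAt
    (fun _ _ h => ENNReal.ofReal_le_ofReal h) ?_).symm
  rw [show roughDensity w = vl w 2 from funext (roughDensity_vl w)]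
  exact bddA w 2

lemma sub' : S_SUB := sub (bt crt fund) mert

lemma sparsest_lt : sparsest < 1 := by
  rw [sparsest_sl]
  refine lt_of_le_of_lt (liminf_le_add fun ε hε => ?_) (sl_lt_one (siga sub') buch (show (2 : ℝ) < 3 by norm_num))
  exact ((sig2 sub').1 ε hε).mono fun w hw => hw.1

lemma one_lt_densest : 1 < densest := by
  rw [densest_sh]
  refine lt_of_lt_of_le (one_lt_sh (siga sub') buch (show (2 : ℝ) < 3 by norm_num)) (limsup_le_add fun ε hε => ?_)
  exact ((sig2 sub').1 ε hε).mono fun w hw => hw.2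

lemma lower_pos {l : ℝ} (hl : 1 < l) : 0 < lower l := by
  have h1 : Tendsto (fun u : ℝ => u * Real.log u - u * Real.log l - u + l) (𝓝 0) (𝓝 (0 * Real.log 0 - 0 * Real.log l - 0 + l)) := by
    have : Continuous fun u : ℝ => u * Real.log u - u * Real.log l - u + l :=
      ((Real.continuous_mul_log.sub (continuous_id.mul continuous_const)).sub continuous_id).add continuous_const
    exact this.tendsto 0
  have h2 : ∀ᶠ u : ℝ in 𝓝 0, 1 < u * Real.log u - u * Real.log l - u + l :=
    h1.eventually (lt_mem_nhds (by simpa using hl))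
  obtain ⟨r, hr, h3⟩ := Metric.eventually_nhds_iff.1 h2
  have h4 : r ≤ lower l := by
    refine le_csInf ⟨l, by linarith, ?_⟩ ?_
    · rw [div_self (by linarith), Real.log_one]
      linarith
    · rintro u ⟨hu0, hu1⟩
      by_contra hur
      push Not at hur
      have h5 := @h3 u (by rw [Real.dist_eq, sub_zero, abs_of_nonneg hu0]; exact hur)
      rcases hu0.eq_or_lt with h | h
      · rw [← h] at hu1
        simp at hu1
        linarith
      · rw [Real.log_div h.ne' (by linarith)] at hu1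
        linarith
  linarith

lemma cntk_count (S : Set ℕ) (x y : ℝ) : cntk cc dd S x y = count S x y := by
  unfold cntk count
  congr 1
  ext m
  simp only [cc, dd, one_mul, add_zero, Set.mem_ofPred_eq]
  exact and_congr_left fun _ => ⟨fun h => h 0, fun h _ => h⟩

/-- The linear sieve: `σ⁺ ≤ e^γ`. -/
lemma densest_le : densest ≤ ENNReal.ofReal (Real.exp Real.eulerMascheroniConstant) := by
  rw [densest_sh]
  have h := Pool.Agent.H50.LS.finu (Pool.Agent.H50.LS.jru Pool.Agent.H50.LS.lsu Pool.Agent.H50.LS.clu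
    Pool.Agent.H50.LS.phu (Pool.Agent.H50.LS.nuu mert)) Pool.Agent.H50.LS.az 2 (by norm_num) (by norm_num)
  rwa [mul_div_cancel_left₀ _ (two_ne_zero)] at h

/-- The numbers of elements of Granville's random set in the intervals `(x, x + C (log x)²)`. -/
theorem result :
    -- Granville's model exists
    (∃ (Ω : Type) (_ : MeasurableSpace Ω) (P : Measure Ω) (A : ℕ → Set Ω) (z : ℕ → ℕ), GranvilleModel P A z) ∧
    -- the extremal densities of the interval sieve, and the thresholds
    sparsest < 1 ∧ 1 < densest ∧ densest ≤ ENNReal.ofReal (Real.exp Real.eulerMascheroniConstant) ∧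
    (∀ l : ℝ, 1 < l → Real.exp 1 < upper l ∧ l ≤ upper l ∧ 0 < lower l) ∧
    (∀ l : ℝ, 0 ≤ l → l ≤ 1 → lower l = 0) ∧
    (∀ (Ω : Type) [MeasurableSpace Ω] (P : Measure Ω) (A : ℕ → Set Ω) (z : ℕ → ℕ), GranvilleModel P A z →
      -- all intervals `(x, x + C (log x)²)`
      (∀ C : ℝ, 0 < C → ∀ᵐ ω ∂P,
        limsup (fun x : ℝ => ENNReal.ofReal
          (count {n | ω ∈ A n} x (C * Real.log x ^ 2) / Real.log x)) atTop =
          ENNReal.ofReal (upper (C * densest.toReal)) ∧
        liminf (fun x : ℝ => ENNReal.ofReal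
          (count {n | ω ∈ A n} x (C * Real.log x ^ 2) / Real.log x)) atTop =
          ENNReal.ofReal (lower (C * sparsest.toReal)) ∧
        (C * sparsest.toReal < 1 → ∃ᶠ x : ℝ in atTop, count {n | ω ∈ A n} x (C * Real.log x ^ 2) = 0) ∧
        (1 < C * sparsest.toReal → ∀ᶠ x : ℝ in atTop, 0 < count {n | ω ∈ A n} x (C * Real.log x ^ 2))) ∧
      -- in particular Schinzel's intervals `(x, x + (log x)²)`
      (∀ᵐ ω ∂P,
        ENNReal.ofReal (Real.exp 1) < limsup (fun x : ℝ => ENNReal.ofReal
          (count {n | ω ∈ A n} x (Real.log x ^ 2) / Real.log x)) atTop ∧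
        ∃ᶠ x : ℝ in atTop, count {n | ω ∈ A n} x (Real.log x ^ 2) = 0)) := by
  have hup : upper = up := rfl
  have hdn : lower = dn := rfl
  obtain ⟨h0, h2, hle, hgen⟩ := general gup' gex' rate hbk' sys1
  rw [shk_sh] at h2 hgen
  rw [slk_sl] at hgen
  have h2' : sl 2 < ∞ := by
    rw [← sparsest_sl]
    exact sparsest_lt.trans ENNReal.one_lt_top
  have hσ2 : 1 < (sh 2).toReal := by
    have := one_lt_densest
    rw [densest_sh] at this
    rw [← ENNReal.toReal_one]
    exact (ENNReal.toReal_lt_toReal ENNReal.one_ne_top h2.ne).2 this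
  have hσ1 : (sl 2).toReal < 1 := by
    have := sparsest_lt
    rw [sparsest_sl] at this
    rw [← ENNReal.toReal_one]
    exact (ENNReal.toReal_lt_toReal h2'.ne ENNReal.one_ne_top).2 this
  have hrate := rate
  have key : ∀ (Ω : Type) [MeasurableSpace Ω] (P : Measure Ω) (A : ℕ → Set Ω) (z : ℕ → ℕ), GranvilleModel P A z →
      ∀ C : ℝ, 0 < C → ∀ᵐ ω ∂P,
        limsup (fun x : ℝ => ENNReal.ofReal
          (count {n | ω ∈ A n} x (C * Real.log x ^ 2) / Real.log x)) atTop =
          ENNReal.ofReal (upper (C * densest.toReal)) ∧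
        liminf (fun x : ℝ => ENNReal.ofReal
          (count {n | ω ∈ A n} x (C * Real.log x ^ 2) / Real.log x)) atTop =
          ENNReal.ofReal (lower (C * sparsest.toReal)) ∧
        (C * sparsest.toReal < 1 → ∃ᶠ x : ℝ in atTop, count {n | ω ∈ A n} x (C * Real.log x ^ 2) = 0) ∧
        (1 < C * sparsest.toReal → ∀ᶠ x : ℝ in atTop, 0 < count {n | ω ∈ A n} x (C * Real.log x ^ 2)) := by
    intro Ω _ P A z hmod C hC
    filter_upwards [hgen Ω P A z ((gmod_iff P A z).1 hmod) C hC] with ω hω
    simp only [cntk_count] at hω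
    rw [densest_sh, sparsest_sl, hup, hdn]
    refine ⟨hω.1, hω.2.1, hω.2.2, fun h1 => ?_⟩
    have h3 := lower_pos h1
    rw [hdn] at h3
    have h4 : (0 : ℝ≥0∞) < liminf (fun x : ℝ => ENNReal.ofReal
          (count {n | ω ∈ A n} x (C * Real.log x ^ 2) / Real.log x)) atTop := by
      have h5 := hω.2.1
      norm_num at h5 ⊢
      rw [h5]
      exact ENNReal.ofReal_pos.2 h3
    filter_upwards [eventually_lt_of_lt_liminf h4 (by isBoundedDefault)] with x hx
    by_contra hcon
    have h6 : count {n | ω ∈ A n} x (C * Real.log x ^ 2) = 0 := by omega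
    rw [h6] at hx
    simp at hx
  refine ⟨?_, sparsest_lt, one_lt_densest, densest_le, ?_, hrate.2.2.2.2.2.1, ?_⟩
  · obtain ⟨Ω, mΩ, P, A, z, h⟩ := gxm
    exact ⟨Ω, mΩ, P, A, z, (gmod_iff P A z).2 h⟩
  · intro l hl
    exact ⟨hrate.2.2.2.2.1 l hl, hrate.2.2.2.2.2.2.2 l (by linarith), lower_pos hl⟩
  · intro Ω _ P A z hmod
    refine ⟨key Ω P A z hmod, ?_⟩
    filter_upwards [key Ω P A z hmod 1 one_pos] with ω hω
    simp only [one_mul] at hω
    refine ⟨?_, ?_⟩
    · rw [hω.1, densest_sh]
      refine (ENNReal.ofReal_lt_ofReal_iff_of_nonneg (Real.exp_pos 1).le).2 ?_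
      exact hrate.2.2.2.2.1 _ hσ2
    · refine hω.2.2.1 ?_
      rw [sparsest_sl]
      exact hσ1

end Pool.Agent.Results.MP_45ff98_nt.GranvilleWindows
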