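import Pool.Agent.H27.LD.Good

set_option autoImplicit false

/-! # MP_45ff98_nt: Schinzel's intervals at `x = α ^ b n`, for almost all `α > 1`

For almost every `α > 1` the exponents `n`, for which all intervals `(x, x + H)` at `x = α ^ b n`
with `(log x)^2 ≤ H ≤ (log x)^2 + √x` contain the right order of primes, have positive LOWER
density, with respect to all weights with bounded mass on the blocks `2 ^ k ≤ b n < 2 ^ (k + 1)`. -/

namespace Pool.Agent.Results.MP_45ff98_nt.LowerDensity

open Filter MeasureTheory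

/-- number of primes in the open interval `(x, x + H)` -/
noncomputable def primesIn (x H : ℝ) : ℕ := {p : ℕ | p.Prime ∧ x < p ∧ (p : ℝ) < x + H}.ncard

/-- the interval `(x, x + H)` contains between `c H / log x` and `C H / log x` primes, for all `H`
with `(log x)^2 ≤ H ≤ (log x)^2 + √x` -/
def Regular (c C x : ℝ) : Prop := ∀ H : ℝ, Real.log x ^ 2 ≤ H → H ≤ Real.log x ^ 2 + √x →
  c * H / Real.log x ≤ primesIn x H ∧ (primesIn x H : ℝ) ≤ C * H / Real.log x

/-- the weights `w n` of the `n` with `2 ^ k ≤ b n < 2 ^ (k + 1)` have a bounded sum -/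
def BoundedOnBlocks (b w : ℕ → ℝ) : Prop :=
  ∃ M : ℝ, ∀ k : ℕ, ∀ F : Finset ℕ, (∀ n ∈ F, (2 : ℝ) ^ k ≤ b n ∧ b n < 2 ^ (k + 1)) →
    ∑ n ∈ F, w n ≤ M

open Classical in
/-- There are `c, C, κ > 0` such that the following holds for every real sequence `b n → ∞` and all
weights `w n ≥ 0` whose sum diverges and whose sums over the blocks `2 ^ k ≤ b n < 2 ^ (k + 1)` are
bounded: for almost every `α > 1`, the `n < N` for which `x = α ^ b n` is regular carry at least the
proportion `κ` of the weight of all `n < N`, for all large `N`. -/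
theorem result : ∃ c C κ : ℝ, 0 < c ∧ 0 < C ∧ 0 < κ ∧
    ∀ b w : ℕ → ℝ, Tendsto b atTop atTop → (∀ n, 0 ≤ w n) → BoundedOnBlocks b w →
      Tendsto (fun N : ℕ => ∑ n ∈ Finset.range N, w n) atTop atTop →
      ∀ᵐ α : ℝ, 1 < α → ∀ᶠ N : ℕ in atTop,
        κ * ∑ n ∈ Finset.range N, w n ≤
          ∑ n ∈ (Finset.range N).filter (fun n : ℕ => Regular c C (α ^ b n)), w n := by
  obtain ⟨θ, lam, c, h0, h1, hlam, hc, X₀, hS⟩ := Pool.Agent.H27.LD.good_dense
  refine ⟨1 / (2 * lam), 4 * lam, c / 96, by positivity, by positivity, by positivity, ?_⟩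
  intro b w hb hw hm hdiv
  filter_upwards [Pool.Agent.H27.LD.metric _ c θ hc X₀ h0 h1 hS b w hb hw hm hdiv] with α hα hα1
  filter_upwards [hα hα1] with N hN
  refine hN.trans (Finset.sum_le_sum_of_subset_of_nonneg ?_ fun n _ _ => hw n)
  intro n hn
  rw [Finset.mem_filter] at hn ⊢
  obtain ⟨hn1, m, hm, h2, h3⟩ := hn
  exact ⟨hn1, hm _ h2 h3⟩

end Pool.Agent.Results.MP_45ff98_nt.LowerDensity
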