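import Pool.Agent.H41.SZ.Fin
import Pool.Agent.H41.SZ.Lim

set_option autoImplicit false

/-!
# The exceptions of Schinzel's conjecture in systems of Beurling primes

Let `P` be a system of generalised primes in the sense of Beurling: real numbers larger than one, finitely many below every
bound; the generalised integers are the products `∏ p^(a p)`. We consider the systems which satisfy the analogue of the Riemann
hypothesis,

`N(x) = c x + O(x^(1/2 + ε))`, `π(x) = li(x) + O(x^(1/2 + ε))` for all `ε > 0`

(then the zeta function of `P` is holomorphic and has no zeros in `re s > 1/2`, except for the pole at `s = 1`), and ask for the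
real numbers `x` for which the interval `(x, x + (log x)^2)` contains no member of `P`. Schinzel's conjecture is that there are no
such `x > 8` for the primes. It is neither true nor false for these systems, also if Cramér's conjecture, that the upper limit of
`(q - p) / (log p)^2` for consecutive members `p < q` is one, is assumed, and if the beginning of the system is that of the primes:

for all `y ≥ 8`, all finite sets `Q ⊆ (1, y]` (for example the primes up to `y`) and all sparse sets `E` there is a system with the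
members `Q` up to `y` for which `E` is precisely the set of exceptions `x > y`, if and only if `E` is a relatively closed subset of
`(y, ∞)` with `[x, z] ⊆ E` whenever `x < z < x + (log x)^2` are in `E`; and there is such a system which satisfies Cramér's
conjecture if and only if, moreover, `E` contains no intervals `(x, x + δ (log x)^2)` with `x ∈ E` arbitrarily large, `δ > 0` fixed.
(For example `E` empty; `E = {x₀}`; `E` a sequence which tends to infinity so fast that `∑ x^(-σ)` converges for `σ > 1/2` and
the distance from each member to the next one is at least `(log x)^2`.)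

Here a set `E` is sparse if `∑ n^(-σ)`, the sum over the integer parts `n` of its members, converges for all `σ > 1/2`.

Proof. There is a system with at most three members in every interval `[n, n + 1)`, members in all `(x, x + (log x)^2)`
for large `x`, `π(x) = li(x) + O(1)` and `N(x) = c x + O(x^(1/2 + ε))` (independent random members in cells of mass one; this is
the construction of `Pool/Agent/H41/BC` for Cramér's conjecture). The set of members may be changed on a set `D` with
`∑_(d ∈ D) d^(-σ) < ∞` for all `σ > 1/2`. The zones `(x, x + (log x)^2)`, `x ∈ E`, are emptied, and their end points are added.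
-/

open MeasureTheory Filter Topology Set

namespace Pool.Agent.Results.MP_45ff98_nt.PrescribedExceptions

/-- A system of generalised primes: real numbers larger than one, finitely many below every bound. -/
structure IsSystem (P : Set ℝ) : Prop where
  one_lt : ∀ p ∈ P, 1 < p
  finite : ∀ x : ℝ, {p | p ∈ P ∧ p ≤ x}.Finite

/-- The number of generalised primes `≤ x`. -/
noncomputable def primeCount (P : Set ℝ) (x : ℝ) : ℕ := {p | p ∈ P ∧ p ≤ x}.ncard

/-- The number of generalised integers `≤ x`, with multiplicity: of the functions `a` with finite support in `P` and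
`∏ p^(a p) ≤ x`. -/
noncomputable def integerCount (P : Set ℝ) (x : ℝ) : ℕ :=
  {a : ℝ →₀ ℕ | (∀ p, a p ≠ 0 → p ∈ P) ∧ (a.prod fun p k => p ^ k) ≤ x}.ncard

/-- The analogue of the Riemann hypothesis: `N(x) = c x + O(x^(1/2 + ε))` and `π(x) = li(x) + O(x^(1/2 + ε))`. -/
structure Riemann (P : Set ℝ) : Prop where
  system : IsSystem P
  integers : ∃ c : ℝ, 0 < c ∧ ∀ ε : ℝ, 0 < ε → ∃ A : ℝ, ∀ x : ℝ, 1 ≤ x →
    |(integerCount P x : ℝ) - c * x| ≤ A * x ^ (1 / 2 + ε)
  primes : ∀ ε : ℝ, 0 < ε → ∃ A : ℝ, ∀ x : ℝ, 2 ≤ x →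
    |(primeCount P x : ℝ) - ∫ t in (2 : ℝ)..x, 1 / Real.log t| ≤ A * x ^ (1 / 2 + ε)

/-- The least member of `P` which is larger than `x`. -/
noncomputable def next (P : Set ℝ) (x : ℝ) : ℝ := sInf {p | p ∈ P ∧ x < p}

/-- Cramér's conjecture for `P`: the upper limit of `(next P x - x) / (log x)^2` for `x → ∞` is one. -/
def Cramer (P : Set ℝ) : Prop :=
  limsup (fun x : ℝ => ENNReal.ofReal ((next P x - x) / Real.log x ^ 2)) atTop = 1

/-- The real numbers `x > y` for which the interval `(x, x + (log x)^2)` contains no member of `P`. -/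
def exceptions (y : ℝ) (P : Set ℝ) : Set ℝ := {x | y < x ∧ ∀ p ∈ P, ¬ (x < p ∧ p < x + Real.log x ^ 2)}

/-- The sum of `n^(-σ)` over the integer parts `n` of the members of `E` converges for all `σ > 1/2`. -/
def Sparse (E : Set ℝ) : Prop :=
  ∀ σ : ℝ, 1 / 2 < σ → Summable fun n : ((fun x : ℝ => ⌊x⌋₊) '' E : Set ℕ) => ((n : ℕ) : ℝ) ^ (-σ)

/-- `E` is a relatively closed subset of `(y, ∞)`, and `[x, z] ⊆ E` if `x < z < x + (log x)^2` are in `E`. -/
structure Admissible (y : ℝ) (E : Set ℝ) : Prop where
  gt : ∀ x ∈ E, y < x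
  closed : ∀ x ∈ closure E, y < x → x ∈ E
  fill : ∀ x ∈ E, ∀ z ∈ E, x < z → z < x + Real.log x ^ 2 → Icc x z ⊆ E

/-- For all `δ > 0` and all large `x ∈ E` the interval `(x, x + δ (log x)^2)` is not contained in `E`. -/
def NoLongIntervals (E : Set ℝ) : Prop :=
  ∀ δ : ℝ, 0 < δ → ∃ X : ℝ, ∀ x ∈ E, X ≤ x → ∃ w, x < w ∧ w < x + δ * Real.log x ^ 2 ∧ w ∉ E

/-- **The exceptions of Schinzel's conjecture for systems of generalised primes.** Let `y ≥ 8`, `Q ⊆ (1, y]` finite and `E` sparse.
There is a system which satisfies the analogue of the Riemann hypothesis, the members `≤ y` of which are those of `Q`, and for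
which `E` is the set of the exceptions `x > y` of Schinzel's conjecture, if and only if `E` is admissible. There is such a
system which also satisfies Cramér's conjecture if and only if `E` is admissible and contains no long intervals. -/
theorem result (y : ℝ) (hy : 8 ≤ y) (Q : Set ℝ) (hQ : Q.Finite) (hQ1 : ∀ q ∈ Q, 1 < q ∧ q ≤ y) (E : Set ℝ)
    (hE : Sparse E) :
    ((∃ P : Set ℝ, Riemann P ∧ {p | p ∈ P ∧ p ≤ y} = Q ∧ exceptions y P = E) ↔ Admissible y E) ∧
    ((∃ P : Set ℝ, Riemann P ∧ Cramer P ∧ {p | p ∈ P ∧ p ≤ y} = Q ∧ exceptions y P = E) ↔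
      Admissible y E ∧ NoLongIntervals E) := by
  obtain ⟨h1, h2⟩ := Pool.Agent.H41.SZ.final y hy Q hQ (fun q hq => hQ1 q hq) E hE
  have hR : ∀ P : Set ℝ, Riemann P ↔
      Pool.Agent.H41.SZ.IsSys P ∧ Pool.Agent.H41.SZ.NumOK P ∧ Pool.Agent.H41.SZ.CntOK P := fun P =>
    ⟨fun h => ⟨⟨h.system.one_lt, h.system.finite⟩, h.integers, h.primes⟩, fun h => ⟨⟨h.1.one_lt, h.1.fin⟩, h.2.1, h.2.2⟩⟩
  have hA : Admissible y E ↔ Pool.Agent.H41.SZ.Adm y E :=
    ⟨fun h => ⟨h.gt, h.closed, h.fill⟩, fun h => ⟨h.gt, h.closed, h.fill⟩⟩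
  constructor
  · rw [hA, ← h1]
    constructor
    · rintro ⟨P, a, b, c⟩
      obtain ⟨a1, a2, a3⟩ := (hR P).1 a
      exact ⟨P, a1, a2, a3, b, c⟩
    · rintro ⟨P, a1, a2, a3, b, c⟩
      exact ⟨P, (hR P).2 ⟨a1, a2, a3⟩, b, c⟩
  · have hT : NoLongIntervals E ↔ Pool.Agent.H41.SZ.Thin E := Iff.rfl
    rw [hA, hT, ← h2]
    constructor
    · rintro ⟨P, a, d, b, c⟩
      obtain ⟨a1, a2, a3⟩ := (hR P).1 a
      obtain ⟨d1, d2⟩ := (Pool.Agent.H41.SZ.cramer_iff (Pool.Agent.H41.SZ.unbounded a1 a3)).1 d
      exact ⟨P, a1, a2, a3, d1, d2, b, c⟩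
    · rintro ⟨P, a1, a2, a3, d1, d2, b, c⟩
      exact ⟨P, (hR P).2 ⟨a1, a2, a3⟩, (Pool.Agent.H41.SZ.cramer_iff (Pool.Agent.H41.SZ.unbounded a1 a3)).2 ⟨d1, d2⟩, b, c⟩

end Pool.Agent.Results.MP_45ff98_nt.PrescribedExceptions
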